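import Pool.Agent.Helper15.EP.St

set_option autoImplicit false

/-!
# Project EP, module KC1: completion of the count of pairs

Detection of a congruence modulo `m` by the additive characters modulo `m`.
-/

open Polynomial Pool.Agent.Helper15.FC Pool.Agent.Helper15.EP

namespace Pool.Agent.Helper70.EP

noncomputable section

open scoped Classical in
/-- the sum of a character over the translates `x - ρ`, `x` monic of degree `β` -/
private theorem sum_shift {F : Type} [Field F] [Fintype F] (hNTS : StNTS) (β : ℕ)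
    (ν : AddChar F[X] ℂ) (ρ : F[X]) :
    ∑ x ∈ Mn F β, ν (x - ρ) =
      (if ∀ g ∈ Lw F β, ν g = 1 then
        (Fintype.card F : ℂ) ^ β * (ν (X ^ β) * ν⁻¹ ρ) else 0) := by
  have h1 : ∑ x ∈ Mn F β, ν (x - ρ) = (ν (X ^ β) * ν⁻¹ ρ) * ∑ g ∈ Lw F β, ν g := by
    rw [Finset.mul_sum]
    refine Finset.sum_bij' (fun x _ => x - X ^ β) (fun g _ => X ^ β + g) ?_ ?_ ?_ ?_ ?_
    · intro x hx
      obtain ⟨h1, h2⟩ := mem_Mn.1 hx
      rw [mem_Lw]
      have := Polynomial.degree_sub_lt (p := x) (q := X ^ β)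
        (by rw [Polynomial.degree_X_pow, Polynomial.degree_eq_natDegree h1.ne_zero, h2])
        h1.ne_zero (by rw [h1.leadingCoeff, Polynomial.leadingCoeff_X_pow])
      rwa [Polynomial.degree_eq_natDegree h1.ne_zero, h2] at this
    · intro g hg
      rw [mem_Lw] at hg
      rw [mem_Mn]
      refine ⟨Polynomial.monic_X_pow_add hg, ?_⟩
      exact Polynomial.natDegree_eq_of_degree_eq_some
        (by rw [Polynomial.degree_add_eq_left_of_degree_lt (by rwa [Polynomial.degree_X_pow]),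
          Polynomial.degree_X_pow])
    · intro x _
      ring
    · intro g _
      ring
    · intro x _
      rw [AddChar.inv_apply]
      rw [← AddChar.map_add_eq_mul, ← AddChar.map_add_eq_mul]
      congr 1
      ring
  rw [h1]
  by_cases h : ∀ g ∈ Lw F β, ν g = 1
  · rw [if_pos h, Finset.sum_congr rfl h, Finset.sum_const, card_Lw, nsmul_eq_mul, mul_one,
      Nat.cast_pow]
    ring
  · rw [if_neg h, hNTS F ν β (by push Not at h; exact h), mul_zero]

open scoped Classical in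
/-- the number of the monic `x` of degree `β` in a residue class modulo `m` -/
private theorem cnt {F : Type} [Field F] [Fintype F] (hACF : StACF) (hNTS : StNTS) (m : F[X])
    (hm : m.Monic) (β : ℕ) (ρ : F[X]) :
    (Fintype.card F : ℂ) ^ m.natDegree * (((Mn F β).filter (fun x => m ∣ x - ρ)).card : ℂ) =
      (Fintype.card F : ℂ) ^ β * ∑ ν ∈ Oc m β, ν (X ^ β) * ν⁻¹ ρ := by
  obtain ⟨-, -, -, hd, hnd⟩ := (hACF F).2 m hm
  rw [Finset.card_filter, Nat.cast_sum, Finset.mul_sum]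
  have h1 : ∀ x ∈ Mn F β, (Fintype.card F : ℂ) ^ m.natDegree *
      ((if m ∣ x - ρ then 1 else 0 : ℕ) : ℂ) = ∑ ν ∈ ACf m, ν (x - ρ) := by
    intro x _
    by_cases h : m ∣ x - ρ
    · rw [if_pos h, hd _ h, Nat.cast_one, mul_one]
    · rw [if_neg h, hnd _ h, Nat.cast_zero, mul_zero]
  rw [Finset.sum_congr rfl h1, Finset.sum_comm]
  rw [Finset.sum_congr rfl (fun ν _ => sum_shift hNTS β ν ρ), ← Finset.sum_filter,
    ← Finset.mul_sum]
  rfl

/-- residues -/
private theorem res_iff {F : Type} [Field F] [Fintype F] (m : F[X]) (hm : m.Monic) (x ρ : F[X])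
    (hρ : ρ ∈ Lw F m.natDegree) : m ∣ x - ρ ↔ x %ₘ m = ρ := by
  have h1 : ρ %ₘ m = ρ := by
    rw [Polynomial.modByMonic_eq_self_iff hm, Polynomial.degree_eq_natDegree hm.ne_zero]
    exact mem_Lw.1 hρ
  rw [← Polynomial.modByMonic_eq_zero_iff_dvd hm, Polynomial.sub_modByMonic, h1, sub_eq_zero]

/-- the condition depends on the residues only -/
private theorem cond_iff {F : Type} [Field F] (m A t x z x' z' : F[X]) (hx : m ∣ x - x')
    (hz : m ∣ z - z') : m ∣ A * x * z - t ↔ m ∣ A * x' * z' - t := by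
  have h : A * x * z - t = (A * x' * z' - t) + ((x - x') * (A * z) + (z - z') * (A * x')) := by
    ring
  rw [h]
  exact dvd_add_left (dvd_add (Dvd.dvd.mul_right hx _) (Dvd.dvd.mul_right hz _))

open scoped Classical in
/-- sorting the pairs by their residues -/
private theorem A2_eq {F : Type} [Field F] [Fintype F] (β γ : ℕ) (m A t : F[X]) (hm : m.Monic) :
    A2 β γ m A t =
      ∑ p ∈ (Lw F m.natDegree ×ˢ Lw F m.natDegree).filter (fun p => m ∣ A * p.1 * p.2 - t),
        ((Mn F β).filter (fun x => m ∣ x - p.1)).card *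
          ((Mn F γ).filter (fun x => m ∣ x - p.2)).card := by
  unfold A2
  have hL : ∀ f : F[X], f %ₘ m ∈ Lw F m.natDegree := by
    intro f
    rw [mem_Lw, ← Polynomial.degree_eq_natDegree hm.ne_zero]
    exact Polynomial.degree_modByMonic_lt f hm
  have hself : ∀ f : F[X], m ∣ f - f %ₘ m := fun f => (res_iff m hm f _ (hL f)).2 rfl
  rw [Finset.card_eq_sum_card_fiberwise (f := fun p : F[X] × F[X] => (p.1 %ₘ m, p.2 %ₘ m))
    (t := (Lw F m.natDegree ×ˢ Lw F m.natDegree).filter (fun p => m ∣ A * p.1 * p.2 - t))]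
  · refine Finset.sum_congr rfl fun p hp => ?_
    rw [Finset.mem_filter, Finset.mem_product] at hp
    obtain ⟨⟨hp1, hp2⟩, hp3⟩ := hp
    rw [← Finset.card_product]
    congr 1
    ext ⟨x, z⟩
    simp only [Finset.mem_filter, Finset.mem_product, Prod.ext_iff]
    rw [res_iff m hm x _ hp1, res_iff m hm z _ hp2]
    constructor
    · rintro ⟨⟨⟨h1, h2⟩, -⟩, h3, h4⟩
      exact ⟨⟨h1, h3⟩, h2, h4⟩
    · rintro ⟨⟨h1, h3⟩, h2, h4⟩
      refine ⟨⟨⟨h1, h2⟩, ?_⟩, h3, h4⟩
      exact (cond_iff m A t x z p.1 p.2 ((res_iff m hm x _ hp1).2 h3)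
        ((res_iff m hm z _ hp2).2 h4)).2 hp3
  · intro p hp
    rw [Finset.mem_coe, Finset.mem_filter, Finset.mem_product] at hp
    rw [Finset.mem_coe, Finset.mem_filter, Finset.mem_product]
    exact ⟨⟨hL _, hL _⟩, (cond_iff m A t p.1 p.2 _ _ (hself _) (hself _)).1 hp.2⟩

/-- **KC1** -/
theorem hKC1 (hACF : StACF) (hNTS : StNTS) : StKC1 := by
  classical
  intro F _ _ m A t β γ hm
  rw [A2_eq β γ m A t hm, Nat.cast_sum, Finset.mul_sum]
  have h1 : ∀ p ∈ (Lw F m.natDegree ×ˢ Lw F m.natDegree).filter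
      (fun p => m ∣ A * p.1 * p.2 - t),
      (Fintype.card F : ℂ) ^ (2 * m.natDegree) *
        ((((Mn F β).filter (fun x => m ∣ x - p.1)).card *
          ((Mn F γ).filter (fun x => m ∣ x - p.2)).card : ℕ) : ℂ) =
      ∑ ν1 ∈ Oc m β, ∑ ν2 ∈ Oc m γ, (Fintype.card F : ℂ) ^ (β + γ) *
        (ν1 (X ^ β) * ν2 (X ^ γ) * (ν1⁻¹ p.1 * ν2⁻¹ p.2)) := by
    intro p _
    have e1 := cnt hACF hNTS m hm β p.1
    have e2 := cnt hACF hNTS m hm γ p.2
    have : (Fintype.card F : ℂ) ^ (2 * m.natDegree) *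
        ((((Mn F β).filter (fun x => m ∣ x - p.1)).card *
          ((Mn F γ).filter (fun x => m ∣ x - p.2)).card : ℕ) : ℂ) =
        ((Fintype.card F : ℂ) ^ m.natDegree *
          (((Mn F β).filter (fun x => m ∣ x - p.1)).card : ℂ)) *
        ((Fintype.card F : ℂ) ^ m.natDegree *
          (((Mn F γ).filter (fun x => m ∣ x - p.2)).card : ℂ)) := by
      push_cast
      ring
    rw [this, e1, e2]
    have h2 : (Fintype.card F : ℂ) ^ β * (∑ ν ∈ Oc m β, ν (X ^ β) * ν⁻¹ p.1) *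
        ((Fintype.card F : ℂ) ^ γ * ∑ ν ∈ Oc m γ, ν (X ^ γ) * ν⁻¹ p.2) =
        (Fintype.card F : ℂ) ^ (β + γ) * ((∑ ν ∈ Oc m β, ν (X ^ β) * ν⁻¹ p.1) *
          ∑ ν ∈ Oc m γ, ν (X ^ γ) * ν⁻¹ p.2) := by
      rw [pow_add]
      ring
    rw [h2, Finset.sum_mul_sum, Finset.mul_sum]
    refine Finset.sum_congr rfl fun ν1 _ => ?_
    rw [Finset.mul_sum]
    refine Finset.sum_congr rfl fun ν2 _ => ?_
    ring
  rw [Finset.sum_congr rfl h1, Finset.sum_comm, Finset.mul_sum]
  refine Finset.sum_congr rfl fun ν1 _ => ?_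
  rw [Finset.sum_comm, Finset.mul_sum]
  refine Finset.sum_congr rfl fun ν2 _ => ?_
  unfold KS
  rw [Finset.mul_sum, Finset.mul_sum]

end

end Pool.Agent.Helper70.EP
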